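import Pool.Agent.Lib.H3W.Q
import Pool.Agent.Lib.H97W.FinD

/-! # H3W, file Fin: the language of simple drawings -/

set_option autoImplicit false
set_option linter.unusedSectionVars false

namespace H3W

open Finset SimpleDraw H63F

/-- A matching as an involution. -/
theorem exists_inv {V : Type*} {G : SimpleGraph V} (M : G.Subgraph) (hM : M.IsMatching) :
    ∃ m : V → V, (∀ v, m (m v) = v) ∧ (∀ v, m v ≠ v → M.Adj v (m v)) ∧ ∀ v, m v = v ↔ v ∉ M.verts := by
  classical
  have hex : ∀ v, ∃ w, v ∈ M.verts → M.Adj v w ∧ ∀ y, M.Adj v y → y = w := by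
    intro v
    by_cases h : v ∈ M.verts
    · obtain ⟨w, h1, h2⟩ := hM h
      exact ⟨w, fun _ => ⟨h1, h2⟩⟩
    · exact ⟨v, fun h1 => absurd h1 h⟩
  choose p hp using hex
  refine ⟨fun v => if v ∈ M.verts then p v else v, ?_, ?_, ?_⟩
  · intro v
    by_cases h : v ∈ M.verts
    · have h1 : M.Adj v (p v) := (hp v h).1
      have h2 : p v ∈ M.verts := M.edge_vert h1.symm
      simp only [h, h2, if_true]
      exact ((hp _ h2).2 v h1.symm).symm
    · simp only [h, if_false]
  · intro v hv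
    by_cases h : v ∈ M.verts
    · simp only [h, if_true]
      exact (hp v h).1
    · simp only [h, if_false] at hv
      exact absurd rfl hv
  · intro v
    by_cases h : v ∈ M.verts
    · simp only [h, if_true, not_true_eq_false, iff_false]
      have h1 : M.Adj v (p v) := (hp v h).1
      exact h1.ne.symm
    · simp only [h, if_false, not_false_eq_true]

/-- A cyclic ordering of the vertices from a list. -/
theorem exists_cycle {n : ℕ} {T : SimpleGraph (Fin n)} {l : List (Fin n)} (hl : l.Nodup) (hl' : ∀ v, v ∈ l)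
    {A : Finset ℕ} (hA : ∀ i ∈ A, ∃ (h : i + 1 < l.length), T.Adj l[i] l[i + 1]) :
    ∃ (σ : Equiv.Perm (Fin n)) (H : SimpleGraph (Fin n)), H ≤ T ∧
      H ≤ (SimpleGraph.cycleGraph n).map σ.toEmbedding ∧ H.edgeSet.ncard = A.card := by
  classical
  have hlen : l.length = n := by
    rw [← List.toFinset_card_of_nodup hl]
    have : l.toFinset = univ := by
      ext v
      rw [List.mem_toFinset]
      exact ⟨fun _ => mem_univ v, fun _ => hl' v⟩
    rw [this, card_univ, Fintype.card_fin]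
  have hinj : ∀ (i j : ℕ) (hi : i < l.length) (hj : j < l.length), l[i] = l[j] → i = j := fun i j hi hj h =>
    (List.Nodup.getElem_inj_iff hl).1 h
  obtain ⟨σ, hσ⟩ : ∃ σ : Equiv.Perm (Fin n), ∀ i : Fin n, σ i = l[i.1]'(by rw [hlen]; exact i.2) :=
    ⟨(finCongr hlen.symm).trans (hl.getEquivOfForallMemList l hl'), fun i => rfl⟩
  set H : SimpleGraph (Fin n) := SimpleGraph.mk
    (fun a b => ∃ i ∈ A, ∃ (h : i + 1 < l.length), (a = l[i] ∧ b = l[i + 1]) ∨ (a = l[i + 1] ∧ b = l[i]))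
    ⟨by
      rintro a b ⟨i, hi, h, h1⟩
      exact ⟨i, hi, h, h1.symm.imp (fun h2 => ⟨h2.2, h2.1⟩) (fun h2 => ⟨h2.2, h2.1⟩)⟩⟩
    ⟨by
      rintro a ⟨i, hi, h, h1⟩
      rcases h1 with ⟨h1, h2⟩ | ⟨h1, h2⟩
      · have := hinj i (i + 1) (by omega) h (h1.symm.trans h2)
        omega
      · have := hinj i (i + 1) (by omega) h (h2.symm.trans h1)
        omega⟩ with hH
  have hHadj : ∀ a b, H.Adj a b ↔ ∃ i ∈ A, ∃ (h : i + 1 < l.length),
      (a = l[i] ∧ b = l[i + 1]) ∨ (a = l[i + 1] ∧ b = l[i]) := fun _ _ => Iff.rfl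
  refine ⟨σ, H, ?_, ?_, ?_⟩
  · rintro a b ⟨i, hi, h, h1⟩
    obtain ⟨_, h2⟩ := hA i hi
    rcases h1 with ⟨rfl, rfl⟩ | ⟨rfl, rfl⟩
    · exact h2
    · exact h2.symm
  · rintro a b ⟨i, hi, h, h1⟩
    have h3 : ((SimpleGraph.cycleGraph n).map σ.toEmbedding).Adj l[i] l[i + 1] := by
      have hi1 : i + 1 < n := by rw [← hlen]; exact h
      rw [SimpleGraph.map_adj]
      refine ⟨⟨i, by omega⟩, ⟨i + 1, hi1⟩, ?_, hσ ⟨i, by omega⟩, hσ ⟨i + 1, hi1⟩⟩
      rw [SimpleGraph.cycleGraph_adj']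
      right
      rw [Fin.sub_val_of_le (by rw [Fin.le_def]; simp)]
      simp
    rcases h1 with ⟨rfl, rfl⟩ | ⟨rfl, rfl⟩
    · exact h3
    · exact h3.symm
  · have e : H.edgeSet = ((A.attach.image fun i => s(l[i.1]'(by
        obtain ⟨h, _⟩ := hA i.1 i.2; omega), l[i.1 + 1]'(by obtain ⟨h, _⟩ := hA i.1 i.2; exact h)) : Finset _) :
        Set (Sym2 (Fin n))) := by
      ext x
      induction x using Sym2.ind with
      | _ a b =>
        rw [SimpleGraph.mem_edgeSet, hHadj, mem_coe, mem_image]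
        constructor
        · rintro ⟨i, hi, h, h1⟩
          refine ⟨⟨i, hi⟩, mem_attach _ _, ?_⟩
          rcases h1 with ⟨rfl, rfl⟩ | ⟨rfl, rfl⟩
          · rfl
          · exact Sym2.eq_swap
        · rintro ⟨⟨i, hi⟩, _, h1⟩
          obtain ⟨h, _⟩ := hA i hi
          refine ⟨i, hi, h, ?_⟩
          rw [Sym2.eq_iff] at h1
          rcases h1 with ⟨h1, h2⟩ | ⟨h1, h2⟩
          · exact Or.inl ⟨h1.symm, h2.symm⟩
          · exact Or.inr ⟨h2.symm, h1.symm⟩
    rw [e, Set.ncard_coe_finset, card_image_of_injective, card_attach]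
    rintro ⟨i, hi⟩ ⟨j, hj⟩ h
    obtain ⟨hi', _⟩ := hA i hi
    obtain ⟨hj', _⟩ := hA j hj
    simp only at h
    rw [Sym2.eq_iff] at h
    apply Subtype.ext
    rcases h with ⟨h1, _⟩ | ⟨h1, h2⟩
    · exact hinj i j (by omega) (by omega) h1
    · have := hinj i (j + 1) (by omega) (by omega) h1
      have := hinj (i + 1) j (by omega) (by omega) h2
      omega

/-- The consequence of a fractional Hamiltonian cycle. -/
theorem three_quarters {n : ℕ} (hn : 3 ≤ n) (D : SimpleDrawing n) {G : Finset (Sym2 (Fin n))}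
    {y : Sym2 (Fin n) → ℝ} (hG : H98P.Plane (H53P.crossT (H53P.table D)) G) (h : FracHam G y) :
    ∃ T : SimpleGraph (Fin n), D.Plane T ∧ T.IsTree ∧ (∀ v, (T.neighborSet v).ncard ≤ 3) ∧
      (∃ M : T.Subgraph, M.IsMatching ∧ n ≤ M.verts.ncard + 1) ∧
      ∃ (σ : Equiv.Perm (Fin n)) (H : SimpleGraph (Fin n)), H ≤ T ∧
        H ≤ (SimpleGraph.cycleGraph n).map σ.toEmbedding ∧ 3 * n ≤ 4 * H.edgeSet.ncard + 3 := by
  classical
  have hne : Nonempty (Fin n) := ⟨⟨0, by omega⟩⟩
  have ht := tough h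
  have hc := H97W.crossing_edge h
  obtain ⟨M, hM, hMv⟩ : ∃ M : (H97W.gr G).Subgraph, M.IsMatching ∧ (M.vertsᶜ).ncard ≤ 1 := by
    rcases Nat.even_or_odd n with he | ho
    · obtain ⟨M, hM⟩ := perfect_even h.loop ht hc (by rw [Fintype.card_fin]; exact he)
      refine ⟨M, hM.1, ?_⟩
      have h1 : M.vertsᶜ = ∅ := by
        rw [Set.compl_empty_iff, Set.eq_univ_iff_forall]
        exact fun v => hM.2 v
      rw [h1, Set.ncard_empty]
      exact Nat.zero_le 1
    · obtain ⟨M, hM, hM'⟩ := perfect_odd h.loop ht (by rw [Fintype.card_fin]; exact ho) ⟨0, by omega⟩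
      refine ⟨M, hM, ?_⟩
      rw [hM', compl_compl, Set.ncard_singleton]
  obtain ⟨m, hm, hmM, hmv⟩ := exists_inv M hM
  have hu : (univ.filter fun v => m v = v).card ≤ 1 := by
    have h1 : ((univ.filter fun v => m v = v : Finset (Fin n)) : Set (Fin n)) = M.vertsᶜ := by
      ext v
      rw [mem_coe, mem_filter, hmv, Set.mem_compl_iff]
      simp
    rw [← Set.ncard_coe_finset, h1]
    exact hMv
  obtain ⟨T, hT, hT1, hT2, hT3, l, A, hl, hl', hA, hA'⟩ := exists_order (G := H97W.gr G) hm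
    (fun v hv => (hmM v hv).adj_sub) hu
    (fun S hS hS' => by
      obtain ⟨a, ha, b, hb, hab⟩ := hc S hS hS'
      exact ⟨a, ha, b, hb, H97W.adj_of h.loop hab⟩)
    fun S g hS hg => by
      have h1 := ht S hS g fun u hu v hv huv => hg u v hu hv (H97W.adj_of h.loop huv)
      omega
  obtain ⟨σ, H, h1, h2, h3⟩ := exists_cycle hl hl' hA'
  have hDG : D.Plane (H97W.gr G) := H97W.plane_of D hG
  refine ⟨T, fun i j k l hij hkl => hDG i j k l (hT hij) (hT hkl), hT1, fun v => ?_, ?_, σ, H, h1, h2, ?_⟩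
  · have := hT2 v
    omega
  · let M' : T.Subgraph :=
      { verts := {v | m v ≠ v}
        Adj := fun a b => m a ≠ a ∧ m a = b
        adj_sub := by
          rintro a b ⟨e1, rfl⟩
          exact hT3 a e1
        edge_vert := by
          rintro a b ⟨e1, _⟩
          exact e1
        symm := ⟨by
          rintro a b ⟨e1, rfl⟩
          rw [hm]
          exact ⟨fun e2 => e1 e2.symm, rfl⟩⟩ }
    refine ⟨M', ?_, ?_⟩
    · intro v hv
      exact ⟨m v, ⟨hv, rfl⟩, fun y hy => hy.2.symm⟩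
    · have e1 : M'.verts = ((univ.filter fun v => ¬ m v = v : Finset (Fin n)) : Set (Fin n)) := by
        ext v
        rw [mem_coe, mem_filter]
        change m v ≠ v ↔ _
        simp
      rw [e1, Set.ncard_coe_finset]
      have e2 : (univ.filter fun v => m v = v).card + (univ.filter fun v => ¬ m v = v).card =
          (univ : Finset (Fin n)).card := card_filter_add_card_filter_not _
      rw [card_univ, Fintype.card_fin] at e2
      omega
  · rw [h3]
    rw [Fintype.card_fin] at hA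
    exact hA

end H3W
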