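import Pool.Agent.Lib.H3W.Fin
import Pool.Agent.Lib.H80Q.Z1
import Pool.Agent.Lib.H56Z.X0

/-! # H3W, file Fin2: orders of the vertices with many consecutive edges, in the language of simple drawings -/

set_option autoImplicit false
set_option linter.unusedSectionVars false

namespace H3W

open Finset SimpleDraw H63F

theorem good_zip {α : Type*} (R : α → α → Prop) (p : α × α → Bool) (hp : ∀ a b, p (a, b) = true ↔ R a b) :
    ∀ l : List α, ((l.zip l.tail).filter p).length = good R l
  | [] => by simp [good]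
  | [a] => by simp [good]
  | a :: b :: l => by
    have h := good_zip R p hp (b :: l)
    rw [List.tail_cons] at h
    have e : (a :: b :: l).zip (a :: b :: l).tail = (a, b) :: (b :: l).zip l := by simp
    rw [e]
    simp only [good]
    rw [List.filter_cons]
    by_cases hab : R a b
    · rw [if_pos ((hp a b).2 hab), if_pos hab, List.length_cons, h]
      omega
    · rw [if_neg (fun h' => hab ((hp a b).1 h')), if_neg hab, h]
      omega

/-- From an order of the vertices to a Hamiltonian cycle of `K_n`. -/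
theorem of_order {n : ℕ} (D : SimpleDrawing n) {G : Finset (Sym2 (Fin n))}
    (hG : H98P.Plane (H53P.crossT (H53P.table D)) G) (hloop : ∀ v, s(v, v) ∉ G) {l : List (Fin n)} (hl : l.Nodup)
    (hl' : ∀ v, v ∈ l) {k : ℕ} (hk : k ≤ ((l.zip l.tail).filter (fun p => s(p.1, p.2) ∈ G)).length) :
    ∃ (σ : Equiv.Perm (Fin n)) (H : SimpleGraph (Fin n)), D.Plane H ∧
      H ≤ (SimpleGraph.cycleGraph n).map σ.toEmbedding ∧ k ≤ H.edgeSet.ncard := by
  classical
  have h1 := good_zip (fun a b => s(a, b) ∈ G) (fun p => s(p.1, p.2) ∈ G) (fun a b => by simp) l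
  obtain ⟨A, hA, hA'⟩ := good_card (fun a b => s(a, b) ∈ G) l
  obtain ⟨σ, H, h2, h3, h4⟩ := exists_cycle (T := H97W.gr G) hl hl' fun i hi => by
    obtain ⟨h, h2⟩ := hA' i hi
    exact ⟨h, H97W.adj_of hloop h2⟩
  have hDG : D.Plane (H97W.gr G) := H97W.plane_of D hG
  refine ⟨σ, H, fun i j k l hij hkl => hDG i j k l (h2 hij) (h2 hkl), h3, ?_⟩
  rw [h4, hA, ← h1]
  exact hk

variable {V : Type*} [Fintype V] [DecidableEq V]

private theorem fin2_fh {G : Finset (Sym2 V)} {y : Sym2 V → ℝ} (h : FracHam G y) (hV : 3 ≤ Fintype.card V) :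
    H80Q.FH (fun u v : V => s(u, v) ∈ G) (fun u v => y s(u, v)) := by
  have hc : ∀ S : Finset V, cutw y S = ∑ a ∈ S, ∑ b ∈ univ \ S, y s(a, b) := fun S => H56Z.cutw_pairs y S
  refine ⟨?_, ?_, ?_, ?_, ?_, ?_, ?_, hV⟩
  · intro u v huv
    rw [Sym2.eq_swap]
    exact huv
  · exact fun v => h.loop v
  · exact fun u v => h.nonneg _
  · intro u v
    rw [Sym2.eq_swap]
  · exact fun u v huv => h.supp _ huv
  · intro v
    have h1 := h.vert v
    rw [hc, sum_singleton] at h1
    have h2 : ∑ w, y s(v, w) = ∑ b ∈ univ \ {v}, y s(v, b) + ∑ b ∈ ({v} : Finset V), y s(v, b) :=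
      (sum_sdiff (subset_univ _)).symm
    rw [h2, h1, sum_singleton, h.supp _ (h.loop v), add_zero]
  · intro S hS hS'
    rw [← hc]
    exact h.cut S hS hS'

/-- The edge set `G` of a fractional Hamiltonian cycle on `n ≥ 5` vertices: the vertices can be ordered such that at
least `4 n / 5` of the pairs of consecutive vertices are edges of `G`. -/
theorem order_four_fifths {G : Finset (Sym2 V)} {y : Sym2 V → ℝ} (h : FracHam G y) (hV : 5 ≤ Fintype.card V) :
    ∃ l : List V, l.Nodup ∧ (∀ v, v ∈ l) ∧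
      4 * Fintype.card V ≤ 5 * ((l.zip l.tail).filter (fun p => s(p.1, p.2) ∈ G)).length := by
  obtain ⟨L, h1, h2, h3⟩ := H80Q.main (fin2_fh h (by omega))
  obtain ⟨l, h4, h5, h6⟩ := H80Q.glue (A := fun u v : V => s(u, v) ∈ G) h1 h2
  refine ⟨l, h4, h5, ?_⟩
  rcases h3 with h3 | h3 <;> omega

end H3W
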