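import Pool.Agent.Lib.H3W.Fin2
import Pool.Agent.Lib.H97W.FinQ

/-! # H3W, file Fin3: the 4/5 property of a graph with a fractional Hamiltonian cycle, inside the graph -/

set_option autoImplicit false

set_option linter.unusedSectionVars false

namespace H3W

open Finset SimpleDraw H63F H98P H53P H97W

/-- The graph `G` of a fractional Hamiltonian cycle on `n ≥ 5` vertices has a subgraph `H` with at least `4 n / 5`
edges all of which belong to one Hamiltonian cycle of `K_n`. -/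
theorem cycle_in {n : ℕ} {G : Finset (Sym2 (Fin n))} {y : Sym2 (Fin n) → ℝ} (h : FracHam G y) (hn : 5 ≤ n) :
    ∃ (σ : Equiv.Perm (Fin n)) (H : SimpleGraph (Fin n)), H ≤ H97W.gr G ∧
      H ≤ (SimpleGraph.cycleGraph n).map σ.toEmbedding ∧ 4 * n ≤ 5 * H.edgeSet.ncard := by
  classical
  obtain ⟨l, hl, hl', hk⟩ := order_four_fifths h (by rw [Fintype.card_fin]; exact hn)
  rw [Fintype.card_fin] at hk
  have h1 := good_zip (fun a b => s(a, b) ∈ G) (fun p => s(p.1, p.2) ∈ G) (fun a b => by simp) l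
  obtain ⟨A, hA, hA'⟩ := good_card (fun a b => s(a, b) ∈ G) l
  obtain ⟨σ, H, h2, h3, h4⟩ := exists_cycle (T := H97W.gr G) hl hl' fun i hi => by
    obtain ⟨h5, h6⟩ := hA' i hi
    exact ⟨h5, H97W.adj_of h.loop h6⟩
  refine ⟨σ, H, fun i j hij => h2 hij, h3, ?_⟩
  rw [h4, hA, ← h1]
  exact hk

/-- The exact form (`H97W.exact_or`) with one more property of the second alternative: for `n ≥ 5` a Hamiltonian cycle
of `K_n` has at least `4 n / 5` of its edges in `G`. -/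
theorem exact_or_five {n : ℕ} (hn : 3 ≤ n) (D : SimpleDrawing n)
    (h3 : ∃ (G : Finset (Sym2 (Fin n))) (y : Sym2 (Fin n) → ℝ), Plane (crossT (table D)) G ∧ FracHam G y)
    (h4 : 4 ≤ n → ∃ (G : Finset (Sym2 (Fin n))) (y : Sym2 (Fin n) → ℝ), Plane (crossT (table D)) G ∧
      FracHam G y ∧ G.card + 3 = 2 * Fintype.card (Fin n) ∧ ((∀ e, y e = 0 ∨ y e = 1) ∨
        ∀ S : Finset (Fin n), 2 ≤ S.card → 2 ≤ (univ \ S).card → 2 < cutw y S)) :
    ∃ G : SimpleGraph (Fin n), D.Plane G ∧ G.edgeSet.ncard = 2 * n - 3 ∧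
      ((∃ (a : Fin n) (c : G.Walk a a), c.IsHamiltonianCycle) ∨
      (∃ y : Fin n → Fin n → ℝ, ((∀ a b, 0 ≤ y a b) ∧ (∀ a b, y a b = y b a) ∧ ∀ a b, y a b ≠ 0 → G.Adj a b) ∧
        (∀ a b, y a b < 1) ∧ (∀ a, ∑ b, y a b = 2) ∧
        (∀ S : Finset (Fin n), 2 ≤ S.card → 2 ≤ Sᶜ.card → 2 < ∑ a ∈ S, ∑ b ∈ Sᶜ, y a b)) ∧
      (∀ X : Finset (Fin n), X.card ≤ 2 → (G.induce {v | v ∉ X}).Connected) ∧
      (∀ X : Finset (Fin n), 2 ≤ X.card → (∃ a b, G.Adj a b ∧ a ∉ X ∧ b ∉ X) →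
        Nat.card (G.induce {v | v ∉ X}).ConnectedComponent < X.card) ∧
      (∀ u, ∃ w : G.Walk u u, (∀ v, 1 ≤ w.support.tail.count v ∧ w.support.tail.count v ≤ 2) ∧
        2 * w.length + 2 ≤ 3 * n) ∧
      (∃ F ≤ G, (∀ v, (F.neighborSet v).ncard ≤ 2) ∧ 8 * n ≤ 9 * F.edgeSet.ncard) ∧
      (5 ≤ n → ∃ (σ : Equiv.Perm (Fin n)) (H : SimpleGraph (Fin n)), H ≤ G ∧
        H ≤ (SimpleGraph.cycleGraph n).map σ.toEmbedding ∧ 4 * n ≤ 5 * H.edgeSet.ncard)) := by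
  have hV : 3 ≤ Fintype.card (Fin n) := by rw [Fintype.card_fin]; exact hn
  rcases Nat.lt_or_ge n 4 with h | h
  · obtain ⟨G, y, g1, g2⟩ := h3
    have hc : Fintype.card (Fin n) = 3 := by rw [Fintype.card_fin]; omega
    refine ⟨gr G, plane_of D g1, ?_, Or.inl (ham_walk hV g2 (integral_three hc g2))⟩
    rw [ncard_edges g2.loop, card_three hc g2]
    omega
  · obtain ⟨G, y, g1, g2, g3, g4⟩ := h4 h
    rw [Fintype.card_fin] at g3
    refine ⟨gr G, plane_of D g1, ?_, ?_⟩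
    · rw [ncard_edges g2.loop]
      omega
    · rcases g4 with g4 | g4
      · exact Or.inl (ham_walk hV g2 g4)
      · obtain ⟨f1, f2, f3, f4, f5, f6, f7, f8⟩ := strict_all h g2 g4
        exact Or.inr ⟨⟨fun a b => y s(a, b), f1, f3, f4, f5⟩, f2, f6, f7, f8, fun h5 => cycle_in g2 h5⟩

end H3W
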