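import Mathlib

/-! # H3W, file M: Win's theorem (Ellingham, Nam, Voss) for spanning trees which contain a prescribed matching

The matching is given by an involution `m` (`m v = v`: `v` is not matched). Adapted from Lib/H59T/Win.lean. -/

set_option autoImplicit false

namespace H3W

open Finset

variable {V : Type*} [DecidableEq V] (G : SimpleGraph V) (m : V → V)

/-- `Tr G m W δ`: the set `W` is closed under `m`, and there is a spanning tree of `W` which consists of the matching
edges of `m` on `W` and of edges of `G`, of which `δ v` at `v`. -/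
inductive Tr : Finset V → (V → ℕ) → Prop
  | base (v : V) : Tr {v, m v} 0
  | glue {W₁ W₂ : Finset V} {δ₁ δ₂ : V → ℕ} {u w : V} : Tr W₁ δ₁ → Tr W₂ δ₂ → Disjoint W₁ W₂ → u ∈ W₁ → w ∈ W₂ →
      G.Adj u w → Tr (W₁ ∪ W₂) (δ₁ + δ₂ + Pi.single u 1 + Pi.single w 1)

/-- `1` if `v` is matched, else `0`. -/
def mu (v : V) : ℤ := if m v = v then 0 else 1

variable {G m}

theorem Tr.supp {W : Finset V} {δ : V → ℕ} (h : Tr G m W δ) : ∀ v, v ∉ W → δ v = 0 := by
  induction h with
  | base v => intro x _; rfl
  | @glue W₁ W₂ δ₁ δ₂ u w _ _ _ hu hw _ ih1 ih2 =>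
    intro x hx
    rw [mem_union, not_or] at hx
    have hxu : x ≠ u := fun h => hx.1 (h ▸ hu)
    have hxw : x ≠ w := fun h => hx.2 (h ▸ hw)
    simp [ih1 x hx.1, ih2 x hx.2, hxu, hxw]

theorem Tr.nonempty {W : Finset V} {δ : V → ℕ} (h : Tr G m W δ) : W.Nonempty := by
  induction h with
  | base v => exact ⟨v, mem_insert_self _ _⟩
  | glue _ _ _ hu _ _ _ _ => exact ⟨_, mem_union_left _ hu⟩

theorem Tr.closed (hm : ∀ v, m (m v) = v) {W : Finset V} {δ : V → ℕ} (h : Tr G m W δ) : ∀ v ∈ W, m v ∈ W := by
  induction h with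
  | base v =>
    intro x hx
    rw [mem_insert, mem_singleton] at hx
    rcases hx with rfl | rfl
    · exact mem_insert_of_mem (mem_singleton_self _)
    · rw [hm]
      exact mem_insert_self _ _
  | glue _ _ _ _ _ _ ih1 ih2 =>
    intro x hx
    rcases mem_union.1 hx with hx | hx
    · exact mem_union_left _ (ih1 x hx)
    · exact mem_union_right _ (ih2 x hx)

/-- An unmatched vertex without edges is alone. -/
theorem Tr.alone (hm : ∀ v, m (m v) = v) {W : Finset V} {δ : V → ℕ} (h : Tr G m W δ) {v : V} (hv : v ∈ W)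
    (hmv : m v = v) (h0 : δ v = 0) : W = {v} := by
  induction h with
  | base w =>
    rw [mem_insert, mem_singleton] at hv
    rcases hv with rfl | rfl
    · rw [hmv, pair_eq_singleton]
    · rw [hm] at hmv
      rw [← hmv, pair_eq_singleton]
  | @glue W₁ W₂ δ₁ δ₂ u w h1 h2 hd hu hw ha ih1 ih2 =>
    exfalso
    simp only [Pi.add_apply] at h0
    have hvu : v ≠ u := by
      rintro rfl
      rw [Pi.single_eq_same] at h0
      omega
    have hvw : v ≠ w := by
      rintro rfl
      rw [Pi.single_eq_same] at h0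
      omega
    rcases mem_union.1 hv with hv | hv
    · have := ih1 hv (by omega)
      rw [this, mem_singleton] at hu
      exact hvu hu.symm
    · have := ih2 hv (by omega)
      rw [this, mem_singleton] at hw
      exact hvw hw.symm

theorem Tr.split {W : Finset V} {δ : V → ℕ} (h : Tr G m W δ) {v : V} (hv : v ∈ W) (hne : δ v ≠ 0) :
    ∃ W₁ W₂ δ₁ δ₂ x, Tr G m W₁ δ₁ ∧ Tr G m W₂ δ₂ ∧ Disjoint W₁ W₂ ∧ v ∈ W₁ ∧ x ∈ W₂ ∧ G.Adj v x ∧ W = W₁ ∪ W₂ ∧
      δ = δ₁ + δ₂ + Pi.single v 1 + Pi.single x 1 := by
  induction h with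
  | base w => exact absurd rfl hne
  | @glue W₁ W₂ δ₁ δ₂ u w h1 h2 hd hu hw ha ih1 ih2 =>
    rcases eq_or_ne v u with rfl | hvu
    · exact ⟨W₁, W₂, δ₁, δ₂, w, h1, h2, hd, hu, hw, ha, rfl, rfl⟩
    rcases eq_or_ne v w with rfl | hvw
    · exact ⟨W₂, W₁, δ₂, δ₁, u, h2, h1, hd.symm, hw, hu, ha.symm, union_comm _ _, by
        rw [add_comm δ₁ δ₂, add_assoc, add_comm (Pi.single u 1), ← add_assoc]⟩
    rcases mem_union.1 hv with hv1 | hv2
    · have hne1 : δ₁ v ≠ 0 := by
        have h3 := h2.supp v (disjoint_left.1 hd hv1)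
        simpa [h3, hvu, hvw] using hne
      obtain ⟨A, B, α, β, x, hA, hB, hAB, hvA, hxB, hax, rfl, rfl⟩ := ih1 hv1 hne1
      rw [disjoint_union_left] at hd
      rcases mem_union.1 hu with huA | huB
      · refine ⟨A ∪ W₂, B, _, β, x, Tr.glue hA h2 hd.1 huA hw ha, hB, ?_, mem_union_left _ hvA, hxB, hax, ?_, ?_⟩
        · rw [disjoint_union_left]
          exact ⟨hAB, hd.2.symm⟩
        · rw [union_assoc, union_comm B W₂, ← union_assoc]
        · ext y
          simp only [Pi.add_apply]
          ring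
      · refine ⟨A, B ∪ W₂, α, _, x, hA, Tr.glue hB h2 hd.2 huB hw ha, ?_, hvA, mem_union_left _ hxB, hax, ?_, ?_⟩
        · rw [disjoint_union_right]
          exact ⟨hAB, hd.1⟩
        · rw [union_assoc]
        · ext y
          simp only [Pi.add_apply]
          ring
    · have hne2 : δ₂ v ≠ 0 := by
        have h3 := h1.supp v (disjoint_right.1 hd hv2)
        simpa [h3, hvu, hvw] using hne
      obtain ⟨A, B, α, β, x, hA, hB, hAB, hvA, hxB, hax, rfl, rfl⟩ := ih2 hv2 hne2
      rw [disjoint_union_right] at hd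
      rcases mem_union.1 hw with hwA | hwB
      · refine ⟨W₁ ∪ A, B, _, β, x, Tr.glue h1 hA hd.1 hu hwA ha, hB, ?_, mem_union_right _ hvA, hxB, hax, ?_, ?_⟩
        · rw [disjoint_union_left]
          exact ⟨hd.2, hAB⟩
        · rw [union_assoc]
        · ext y
          simp only [Pi.add_apply]
          ring
      · refine ⟨A, W₁ ∪ B, α, _, x, hA, Tr.glue h1 hB hd.2 hu hwB ha, ?_, hvA, mem_union_right _ hxB, hax, ?_, ?_⟩
        · rw [disjoint_union_right]
          exact ⟨hd.1.symm, hAB⟩
        · rw [← union_assoc, union_comm W₁ A, union_assoc]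
        · ext y
          simp only [Pi.add_apply]
          ring

/-- The matching without the edge at `v`. -/
def del (m : V → V) (v : V) : V → V := fun x => if x = v ∨ x = m v then x else m x

theorem del_inv (hm : ∀ v, m (m v) = v) (v : V) : ∀ x, del m v (del m v x) = x := by
  intro x
  unfold del
  by_cases h : x = v ∨ x = m v
  · rw [if_pos h, if_pos h]
  · rw [if_neg h, if_neg, hm]
    rintro (h1 | h1)
    · exact h (Or.inr (by rw [← h1, hm]))
    · refine h (Or.inl ?_)
      rw [← hm x, h1, hm]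

/-- Deleting a matched vertex without further edges. -/
theorem Tr.delete (hm : ∀ v, m (m v) = v) {v : V} (hmv : m v ≠ v) {W : Finset V} {δ : V → ℕ} (h : Tr G m W δ)
    (h0 : δ v = 0) : (v ∈ W → Tr G (del m v) (W.erase v) δ) ∧ (v ∉ W → Tr G (del m v) W δ) := by
  induction h with
  | base w =>
    have e1 : v ∈ ({w, m w} : Finset V) → (({w, m w} : Finset V).erase v = {m v}) := by
      intro hv
      rw [mem_insert, mem_singleton] at hv
      rcases hv with rfl | rfl
      · rw [erase_insert]
        rw [mem_singleton]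
        exact hmv.symm
      · rw [hm] at hmv ⊢
        rw [pair_comm, erase_insert]
        rw [mem_singleton]
        exact hmv.symm
    constructor
    · intro hv
      rw [e1 hv]
      have h1 := Tr.base (G := G) (m := del m v) (m v)
      have h2 : del m v (m v) = m v := by
        unfold del
        rw [if_pos (Or.inr rfl)]
      rwa [h2, pair_eq_singleton] at h1
    · intro hv
      rw [mem_insert, mem_singleton, not_or] at hv
      have h1 := Tr.base (G := G) (m := del m v) w
      have h2 : del m v w = m w := by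
        unfold del
        rw [if_neg]
        rintro (h3 | h3)
        · exact hv.1 h3.symm
        · exact hv.2 (by rw [h3, hm])
      rwa [h2] at h1
  | @glue W₁ W₂ δ₁ δ₂ u w h1 h2 hd hu hw ha ih1 ih2 =>
    simp only [Pi.add_apply] at h0
    have hvu : v ≠ u := by
      rintro rfl
      rw [Pi.single_eq_same] at h0
      omega
    have hvw : v ≠ w := by
      rintro rfl
      rw [Pi.single_eq_same] at h0
      omega
    obtain ⟨i1, i1'⟩ := ih1 (by omega)
    obtain ⟨i2, i2'⟩ := ih2 (by omega)
    constructor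
    · intro hv
      rcases mem_union.1 hv with hv1 | hv2
      · have hv2 : v ∉ W₂ := disjoint_left.1 hd hv1
        have e1 : (W₁ ∪ W₂).erase v = W₁.erase v ∪ W₂ := by
          rw [erase_union_distrib, erase_eq_of_notMem hv2]
        rw [e1]
        exact Tr.glue (i1 hv1) (i2' hv2) (disjoint_of_subset_left (erase_subset _ _) hd)
          (mem_erase.2 ⟨hvu.symm, hu⟩) hw ha
      · have hv1 : v ∉ W₁ := disjoint_right.1 hd hv2
        have e1 : (W₁ ∪ W₂).erase v = W₁ ∪ W₂.erase v := by
          rw [erase_union_distrib, erase_eq_of_notMem hv1]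
        rw [e1]
        exact Tr.glue (i1' hv1) (i2 hv2) (disjoint_of_subset_right (erase_subset _ _) hd)
          hu (mem_erase.2 ⟨hvw.symm, hw⟩) ha
    · intro hv
      rw [mem_union, not_or] at hv
      exact Tr.glue (i1' hv.1) (i2' hv.2) hd hu hw ha

/-- Adding a matched vertex without further edges. -/
theorem Tr.undelete (hm : ∀ v, m (m v) = v) {v : V} {W : Finset V} {δ : V → ℕ}
    (h : Tr G (del m v) W δ) : v ∉ W → (m v ∈ W → Tr G m (insert v W) δ) ∧ (m v ∉ W → Tr G m W δ) := by
  induction h with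
  | base w =>
    intro hv
    rw [mem_insert, mem_singleton, not_or] at hv
    by_cases hw : w = m v
    · subst hw
      have h2 : del m v (m v) = m v := by
        unfold del
        rw [if_pos (Or.inr rfl)]
      rw [h2, pair_eq_singleton]
      constructor
      · intro _
        exact Tr.base v
      · intro h3
        exact absurd (mem_singleton_self _) h3
    · have h2 : del m v w = m w := by
        unfold del
        rw [if_neg]
        rintro (h3 | h3)
        · exact hv.1 h3.symm
        · exact hw h3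
      rw [h2]
      constructor
      · intro h3
        exfalso
        rw [mem_insert, mem_singleton] at h3
        rcases h3 with h3 | h3
        · exact hw h3.symm
        · apply hv.1
          rw [← hm v, h3, hm]
      · intro _
        exact Tr.base w
  | @glue W₁ W₂ δ₁ δ₂ u w h1 h2 hd hu hw ha ih1 ih2 =>
    intro hv
    rw [mem_union, not_or] at hv
    obtain ⟨i1, i1'⟩ := ih1 hv.1
    obtain ⟨i2, i2'⟩ := ih2 hv.2
    constructor
    · intro h3
      rcases mem_union.1 h3 with h3 | h3
      · have h4 : m v ∉ W₂ := disjoint_left.1 hd h3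
        rw [← insert_union]
        exact Tr.glue (i1 h3) (i2' h4) (by
          rw [disjoint_insert_left]
          exact ⟨hv.2, hd⟩) (mem_insert_of_mem hu) hw ha
      · have h4 : m v ∉ W₁ := disjoint_right.1 hd h3
        rw [← union_insert]
        exact Tr.glue (i1' h4) (i2 h3) (by
          rw [disjoint_insert_right]
          exact ⟨hv.1, hd⟩) hu (mem_insert_of_mem hw) ha
    · intro h3
      rw [mem_union, not_or] at h3
      exact Tr.glue (i1' h3.1) (i2' h3.2) hd hu hw ha

/-- The certificate. -/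
theorem cert (n : ℕ) : ∀ (m : V → V), (∀ v, m (m v) = v) → ∀ (W : Finset V) (δ d : V → ℕ), W.card ≤ n →
    Tr G m W δ → (∀ v ∈ W, δ v ≤ d v) →
    ∃ (S : Finset V) (f : V → V), S ⊆ W ∧
      (∀ v ∈ W, (∀ δ' : V → ℕ, Tr G m W δ' → (∀ x ∈ W, δ' x ≤ d x) → δ' v = d v) → v ∈ S) ∧
      (∀ s ∈ S, δ s = d s) ∧ (∀ x ∈ W \ S, f x ∈ W) ∧
      (∀ u ∈ W \ S, ∀ w ∈ W \ S, G.Adj u w → f u = f w) ∧
      (∑ s ∈ S, ((δ s : ℤ) + mu m s - 2)) + (if S = ∅ then 1 else 2) ≤ (((W \ S).image f).card : ℤ) := by
  induction n with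
  | zero =>
    intro m _ W δ d hn h _
    exact absurd (card_pos.2 h.nonempty) (by omega)
  | succ n ih =>
    intro m hm W δ d hn h hδ
    by_cases hN : ∃ v ∈ W, ∀ δ' : V → ℕ, Tr G m W δ' → (∀ x ∈ W, δ' x ≤ d x) → δ' v = d v
    swap
    · -- no tight vertex
      obtain ⟨w0, hw0⟩ := h.nonempty
      refine ⟨∅, fun _ => w0, empty_subset _, fun v hv h' => absurd ⟨v, hv, h'⟩ hN, by simp, fun _ _ => hw0,
        fun _ _ _ _ _ => rfl, ?_⟩
      rw [if_pos rfl, sum_empty, zero_add, sdiff_empty]
      have : ((W.image fun _ => w0).card) = 1 := by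
        rw [card_eq_one]
        exact ⟨w0, by ext y; simp [eq_comm]; exact fun _ => ⟨w0, hw0⟩⟩
      rw [this]
      norm_num
    obtain ⟨v, hvW, hv⟩ := hN
    by_cases hδv : δ v = 0
    · by_cases hmv : m v = v
      · have hW := h.alone hm hvW hmv hδv
        subst hW
        refine ⟨{v}, id, subset_rfl, fun x hx _ => hx, ?_, ?_, ?_, ?_⟩
        · intro s hs
          rw [mem_singleton] at hs
          subst hs
          exact hv δ h hδ
        · simp
        · simp
        · simp [hδv, mu, hmv]
      · -- delete the leaf `v`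
        have hdv : d v = 0 := by rw [← hv δ h hδ, hδv]
        have hmW : m v ∈ W := h.closed hm v hvW
        have hdel := (h.delete hm hmv hδv).1 hvW
        have hins : insert v (W.erase v) = W := insert_erase hvW
        obtain ⟨S, f, hS, ht, hs, hfm, hfa, hcnt⟩ := ih (del m v) (del_inv hm v) (W.erase v) δ d (by
          rw [card_erase_of_mem hvW]; omega) hdel fun x hx => hδ x (mem_of_mem_erase hx)
        have hvS : v ∉ S := fun h' => (mem_erase.1 (hS h')).1 rfl
        have hdiff : W \ insert v S = (W.erase v) \ S := by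
          ext y
          simp only [mem_sdiff, mem_insert, mem_erase, not_or]
          tauto
        refine ⟨insert v S, f, ?_, ?_, ?_, ?_, ?_, ?_⟩
        · rw [insert_subset_iff]
          exact ⟨hvW, hS.trans (erase_subset _ _)⟩
        · intro t ht1 ht2
          rcases eq_or_ne t v with rfl | htv
          · exact mem_insert_self _ _
          · refine mem_insert_of_mem (ht t (mem_erase.2 ⟨htv, ht1⟩) fun δ' h' hle => ?_)
            have h3 := (Tr.undelete hm h' (by simp)).1 (mem_erase.2 ⟨hmv, hmW⟩)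
            rw [hins] at h3
            refine ht2 δ' h3 fun x hx => ?_
            rcases eq_or_ne x v with rfl | hxv
            · rw [h'.supp x (by simp)]
              omega
            · exact hle x (mem_erase.2 ⟨hxv, hx⟩)
        · intro s hs'
          rcases mem_insert.1 hs' with rfl | hs'
          · rw [hδv, hdv]
          · exact hs s hs'
        · intro y hy
          rw [hdiff] at hy
          exact mem_of_mem_erase (hfm y hy)
        · intro a ha b hb hab
          rw [hdiff] at ha hb
          exact hfa a ha b hb hab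
        · rw [hdiff, sum_insert hvS, if_neg (insert_ne_empty _ _)]
          have e1 : ∀ s ∈ S, (δ s : ℤ) + mu m s - 2 = ((δ s : ℤ) + mu (del m v) s - 2) + if s = m v then 1 else 0 := by
            intro s hs'
            have hsv : s ≠ v := fun h' => hvS (h' ▸ hs')
            unfold mu del
            by_cases hsm : s = m v
            · subst hsm
              rw [hm, if_neg (fun h' => hmv h'.symm), if_pos (Or.inr rfl), if_pos rfl, if_pos rfl]
              ring
            · rw [if_neg (show ¬ (s = v ∨ s = m v) from fun h' => h'.elim hsv hsm), if_neg hsm]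
              ring
          rw [sum_congr rfl e1, sum_add_distrib, sum_ite_eq' S (m v) fun _ => (1 : ℤ)]
          have e2 : mu m v = 1 := by
            unfold mu
            rw [if_neg hmv]
          rw [e2, hδv]
          push_cast
          by_cases hSe : S = ∅
          · rw [if_pos hSe] at hcnt
            have : m v ∉ S := by rw [hSe]; simp
            rw [if_neg this]
            linarith
          · rw [if_neg hSe] at hcnt
            split_ifs <;> linarith
    obtain ⟨W₁, W₂, δ₁, δ₂, x, h1, h2, hdis, hv1, hx2, hvx, rfl, rfl⟩ := h.split hvW hδv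
    have hv2 : v ∉ W₂ := disjoint_left.1 hdis hv1
    have hx1 : x ∉ W₁ := fun hx => disjoint_left.1 hdis hx hx2
    have hvx' : v ≠ x := fun h' => hx1 (h' ▸ hv1)
    have hc1 : W₁.card ≤ n := by
      have := card_pos.2 h2.nonempty
      rw [card_union_of_disjoint hdis] at hn
      omega
    have hc2 : W₂.card ≤ n := by
      have := card_pos.2 h1.nonempty
      rw [card_union_of_disjoint hdis] at hn
      omega
    set d₁ : V → ℕ := fun y => if y = v then d v - 1 else d y with hd₁
    set d₂ : V → ℕ := fun y => if y = x then d x - 1 else d y with hd₂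
    -- degrees of glued trees
    have hval : ∀ (a b : V → ℕ) (p q : V), Tr G m W₁ a → Tr G m W₂ b → p ∈ W₁ → q ∈ W₂ → (∀ y ∈ W₁,
        (a + b + Pi.single p 1 + Pi.single q 1 : V → ℕ) y = a y + if y = p then 1 else 0) ∧ (∀ y ∈ W₂,
        (a + b + Pi.single p 1 + Pi.single q 1 : V → ℕ) y = b y + if y = q then 1 else 0) := by
      intro a b p q ha hb hp hq
      constructor
      · intro y hy
        have hy2 : y ∉ W₂ := disjoint_left.1 hdis hy
        have hyq : y ≠ q := fun h' => hy2 (h' ▸ hq)
        simp only [Pi.add_apply, hb.supp y hy2, add_zero, Pi.single_apply, if_neg hyq]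
      · intro y hy
        have hy1 : y ∉ W₁ := fun h' => disjoint_left.1 hdis h' hy
        have hyp : y ≠ p := fun h' => hy1 (h' ▸ hp)
        simp only [Pi.add_apply, ha.supp y hy1, zero_add, Pi.single_apply, if_neg hyp, add_zero]
    obtain ⟨hval1, hval2⟩ := hval δ₁ δ₂ v x h1 h2 hv1 hx2
    have hδ1 : ∀ y ∈ W₁, δ₁ y ≤ d₁ y := by
      intro y hy
      have h3 := hδ y (mem_union_left _ hy)
      rw [hval1 y hy] at h3
      simp only [hd₁]
      split_ifs at h3 ⊢ with h4
      · subst h4; omega
      · omega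
    have hδ2 : ∀ y ∈ W₂, δ₂ y ≤ d₂ y := by
      intro y hy
      have h3 := hδ y (mem_union_right _ hy)
      rw [hval2 y hy] at h3
      simp only [hd₂]
      split_ifs at h3 ⊢ with h4
      · subst h4; omega
      · omega
    have hdv : 0 < d v := by
      have h3 := hδ v (mem_union_left _ hv1)
      rw [hval1 v hv1, if_pos rfl] at h3
      omega
    have hdx : 0 < d x := by
      have h3 := hδ x (mem_union_right _ hx2)
      rw [hval2 x hx2, if_pos rfl] at h3
      omega
    -- a glued tree obeys `d`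
    have hle : ∀ a b : V → ℕ, Tr G m W₁ a → Tr G m W₂ b → (∀ y ∈ W₁, a y ≤ d₁ y) → (∀ y ∈ W₂, b y ≤ d₂ y) →
        ∀ y ∈ W₁ ∪ W₂, (a + b + Pi.single v 1 + Pi.single x 1 : V → ℕ) y ≤ d y := by
      intro a b ha hb h3 h4 y hy
      obtain ⟨h5, h6⟩ := hval a b v x ha hb hv1 hx2
      rcases mem_union.1 hy with hy | hy
      · rw [h5 y hy]
        have h7 := h3 y hy
        simp only [hd₁] at h7
        split_ifs at h7 ⊢ with h8
        · subst h8; omega
        · omega
      · rw [h6 y hy]
        have h7 := h4 y hy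
        simp only [hd₂] at h7
        split_ifs at h7 ⊢ with h8
        · subst h8; omega
        · omega
    obtain ⟨S₁, f₁, hS1, ht1, hs1, hm1, ha1, hcnt1⟩ := ih m hm W₁ δ₁ d₁ hc1 h1 hδ1
    obtain ⟨S₂, f₂, hS2, ht2, hs2, hm2, ha2, hcnt2⟩ := ih m hm W₂ δ₂ d₂ hc2 h2 hδ2
    -- tightness is inherited
    have hti1 : ∀ t ∈ W₁, (∀ δ' : V → ℕ, Tr G m (W₁ ∪ W₂) δ' → (∀ y ∈ W₁ ∪ W₂, δ' y ≤ d y) → δ' t = d t) →
        t ∈ S₁ := by
      intro t ht h3
      refine ht1 t ht fun a ha hb => ?_
      have h4 := h3 _ (Tr.glue ha h2 hdis hv1 hx2 hvx) (hle a δ₂ ha h2 hb hδ2)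
      rw [(hval a δ₂ v x ha h2 hv1 hx2).1 t ht] at h4
      simp only [hd₁]
      split_ifs at h4 ⊢ with h5
      · subst h5; omega
      · omega
    have hti2 : ∀ t ∈ W₂, (∀ δ' : V → ℕ, Tr G m (W₁ ∪ W₂) δ' → (∀ y ∈ W₁ ∪ W₂, δ' y ≤ d y) → δ' t = d t) →
        t ∈ S₂ := by
      intro t ht h3
      refine ht2 t ht fun b hb hb' => ?_
      have h4 := h3 _ (Tr.glue h1 hb hdis hv1 hx2 hvx) (hle δ₁ b h1 hb hδ1 hb')
      rw [(hval δ₁ b v x h1 hb hv1 hx2).2 t ht] at h4
      simp only [hd₂]
      split_ifs at h4 ⊢ with h5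
      · subst h5; omega
      · omega
    have hvS : v ∈ S₁ := hti1 v hv1 hv
    -- no edge of `G` between the two sides outside `S`
    have hcross : ∀ u ∈ W₁ \ S₁, ∀ w ∈ W₂ \ S₂, ¬ G.Adj u w := by
      intro u hu w hw huw
      rw [mem_sdiff] at hu hw
      have h3 : ∃ a, Tr G m W₁ a ∧ (∀ y ∈ W₁, a y ≤ d₁ y) ∧ a u ≠ d₁ u := by
        by_contra h4
        push Not at h4
        exact hu.2 (ht1 u hu.1 h4)
      have h4 : ∃ b, Tr G m W₂ b ∧ (∀ y ∈ W₂, b y ≤ d₂ y) ∧ b w ≠ d₂ w := by
        by_contra h4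
        push Not at h4
        exact hw.2 (ht2 w hw.1 h4)
      obtain ⟨a, ha, hal, hau⟩ := h3
      obtain ⟨b, hb, hbl, hbw⟩ := h4
      have huv : u ≠ v := fun h' => hu.2 (h' ▸ hvS)
      obtain ⟨h5, h6⟩ := hval a b u w ha hb hu.1 hw.1
      have h7 := hv _ (Tr.glue ha hb hdis hu.1 hw.1 huw) ?_
      · rw [h5 v hv1, if_neg huv.symm] at h7
        have h8 := hal v hv1
        simp only [hd₁, if_true] at h8
        omega
      · intro y hy
        rcases mem_union.1 hy with hy | hy
        · rw [h5 y hy]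
          have h8 := hal y hy
          have h9 : d₁ y ≤ d y := by
            simp only [hd₁]
            split_ifs with h10
            · subst h10; omega
            · exact le_rfl
          split_ifs with h10
          · subst h10
            have := lt_of_le_of_ne h8 hau
            omega
          · omega
        · rw [h6 y hy]
          have h8 := hbl y hy
          have h9 : d₂ y ≤ d y := by
            simp only [hd₂]
            split_ifs with h10
            · subst h10; omega
            · exact le_rfl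
          split_ifs with h10
          · subst h10
            have := lt_of_le_of_ne h8 hbw
            omega
          · omega
    have hSd : Disjoint S₁ S₂ := disjoint_of_subset_left hS1 (disjoint_of_subset_right hS2 hdis)
    have hdiff : (W₁ ∪ W₂) \ (S₁ ∪ S₂) = (W₁ \ S₁) ∪ (W₂ \ S₂) := by
      ext y
      simp only [mem_sdiff, mem_union, not_or]
      constructor
      · rintro ⟨h3 | h3, h4, h5⟩
        · exact Or.inl ⟨h3, h4⟩
        · exact Or.inr ⟨h3, h5⟩
      · rintro (⟨h3, h4⟩ | ⟨h3, h4⟩)
        · exact ⟨Or.inl h3, h4, fun h5 => disjoint_left.1 hdis h3 (hS2 h5)⟩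
        · exact ⟨Or.inr h3, fun h5 => disjoint_left.1 hdis (hS1 h5) h3, h4⟩
    set f : V → V := fun y => if y ∈ W₁ then f₁ y else f₂ y with hf
    have hf1 : ∀ y ∈ W₁ \ S₁, f y = f₁ y := fun y hy => if_pos (mem_sdiff.1 hy).1
    have hf2 : ∀ y ∈ W₂ \ S₂, f y = f₂ y := fun y hy =>
      if_neg fun h' => disjoint_left.1 hdis h' (mem_sdiff.1 hy).1
    refine ⟨S₁ ∪ S₂, f, union_subset_union hS1 hS2, ?_, ?_, ?_, ?_, ?_⟩
    · intro t ht h3
      rcases mem_union.1 ht with ht | ht
      · exact mem_union_left _ (hti1 t ht h3)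
      · exact mem_union_right _ (hti2 t ht h3)
    · intro s hs
      rcases mem_union.1 hs with hs | hs
      · rw [hval1 s (hS1 hs), hs1 s hs]
        simp only [hd₁]
        split_ifs with h3
        · subst h3; omega
        · omega
      · rw [hval2 s (hS2 hs), hs2 s hs]
        simp only [hd₂]
        split_ifs with h3
        · subst h3; omega
        · omega
    · intro y hy
      rw [hdiff] at hy
      rcases mem_union.1 hy with hy | hy
      · rw [hf1 y hy]
        exact mem_union_left _ (hm1 y hy)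
      · rw [hf2 y hy]
        exact mem_union_right _ (hm2 y hy)
    · intro a ha b hb hab
      rw [hdiff] at ha hb
      rcases mem_union.1 ha with ha | ha <;> rcases mem_union.1 hb with hb | hb
      · rw [hf1 a ha, hf1 b hb]
        exact ha1 a ha b hb hab
      · exact absurd hab (hcross a ha b hb)
      · exact absurd hab.symm (hcross b hb a ha)
      · rw [hf2 a ha, hf2 b hb]
        exact ha2 a ha b hb hab
    · rw [hdiff, image_union, card_union_of_disjoint, sum_union hSd]
      · have e1 : ((W₁ \ S₁).image f) = (W₁ \ S₁).image f₁ := image_congr fun y hy => hf1 y hy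
        have e2 : ((W₂ \ S₂).image f) = (W₂ \ S₂).image f₂ := image_congr fun y hy => hf2 y hy
        rw [e1, e2]
        have hSne : S₁ ∪ S₂ ≠ ∅ := fun h' => by
          have : v ∈ (∅ : Finset V) := h' ▸ mem_union_left _ hvS
          simp at this
        have hS1ne : S₁ ≠ ∅ := fun h' => by
          rw [h'] at hvS
          simp at hvS
        rw [if_neg hSne]
        rw [if_neg hS1ne] at hcnt1
        have e3 : ∑ s ∈ S₁, ((((δ₁ + δ₂ + Pi.single v 1 + Pi.single x 1 : V → ℕ) s : ℕ) : ℤ) + mu m s - 2) =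
            ∑ s ∈ S₁, ((δ₁ s : ℤ) + mu m s - 2) + 1 := by
          have : ∀ s ∈ S₁, ((((δ₁ + δ₂ + Pi.single v 1 + Pi.single x 1 : V → ℕ) s : ℕ) : ℤ) + mu m s - 2) =
              ((δ₁ s : ℤ) + mu m s - 2) + if s = v then 1 else 0 := by
            intro s hs
            rw [hval1 s (hS1 hs)]
            push_cast
            ring
          rw [sum_congr rfl this, sum_add_distrib, sum_ite_eq' S₁ v fun _ => (1 : ℤ), if_pos hvS]
        have e4 : ∑ s ∈ S₂, ((((δ₁ + δ₂ + Pi.single v 1 + Pi.single x 1 : V → ℕ) s : ℕ) : ℤ) + mu m s - 2) =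
            ∑ s ∈ S₂, ((δ₂ s : ℤ) + mu m s - 2) + if x ∈ S₂ then 1 else 0 := by
          have : ∀ s ∈ S₂, ((((δ₁ + δ₂ + Pi.single v 1 + Pi.single x 1 : V → ℕ) s : ℕ) : ℤ) + mu m s - 2) =
              ((δ₂ s : ℤ) + mu m s - 2) + if s = x then 1 else 0 := by
            intro s hs
            rw [hval2 s (hS2 hs)]
            push_cast
            ring
          rw [sum_congr rfl this, sum_add_distrib, sum_ite_eq' S₂ x fun _ => (1 : ℤ)]
        rw [e3, e4]
        push_cast
        by_cases hS2e : S₂ = ∅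
        · rw [if_pos hS2e] at hcnt2
          have : x ∉ S₂ := by rw [hS2e]; simp
          rw [if_neg this]
          linarith
        · rw [if_neg hS2e] at hcnt2
          split_ifs <;> linarith
      · rw [disjoint_left]
        intro y hy1 hy2
        rw [mem_image] at hy1 hy2
        obtain ⟨a, ha, rfl⟩ := hy1
        obtain ⟨b, hb, hab⟩ := hy2
        rw [hf1 a ha, hf2 b hb] at hab
        exact disjoint_left.1 hdis (hab ▸ hm1 a ha) (hab ▸ hm2 b hb)



theorem exists_tr [Fintype V] [Nonempty V] (hm : ∀ v, m (m v) = v)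
    (hcon : ∀ S : Finset V, S.Nonempty → S ≠ univ → ∃ a ∈ S, ∃ b, b ∉ S ∧ G.Adj a b) : ∃ δ, Tr G m univ δ := by
  classical
  obtain ⟨v0⟩ := ‹Nonempty V›
  obtain ⟨W, ⟨δ, hW⟩, hmax⟩ := Finset.exists_max_image (univ.filter fun W : Finset V => ∃ δ, Tr G m W δ)
    Finset.card ⟨{v0, m v0}, by simp only [mem_filter, mem_univ, true_and]; exact ⟨_, Tr.base v0⟩⟩ |>.imp
      fun W h => by simpa only [mem_filter, mem_univ, true_and] using h
  by_cases hu : W = univ
  · subst hu
    exact ⟨δ, hW⟩
  exfalso
  obtain ⟨a, ha, b, hb, hab⟩ := hcon W hW.nonempty hu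
  have hdis : Disjoint W {b, m b} := by
    rw [disjoint_right]
    intro y hy
    rw [mem_insert, mem_singleton] at hy
    rcases hy with rfl | rfl
    · exact hb
    · intro h
      have := hW.closed hm _ h
      rw [hm] at this
      exact hb this
  have h3 := Tr.glue hW (Tr.base (G := G) (m := m) b) hdis ha (mem_insert_self _ _) hab
  have h4 := hmax _ ⟨_, h3⟩
  rw [card_union_of_disjoint hdis] at h4
  have : 0 < ({b, m b} : Finset V).card := card_pos.2 ⟨b, mem_insert_self _ _⟩
  omega

/-- Win's theorem with a prescribed matching and at most two further edges at every vertex. -/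
theorem win_m [Fintype V] [Nonempty V] (hm : ∀ v, m (m v) = v)
    (hcon : ∀ S : Finset V, S.Nonempty → S ≠ univ → ∃ a ∈ S, ∃ b, b ∉ S ∧ G.Adj a b)
    (h : ∀ (S : Finset V) (g : V → V), S.Nonempty → (∀ x y, x ∉ S → y ∉ S → G.Adj x y → g x = g y) →
      ((univ \ S).image g).card ≤ (S.filter fun v => m v ≠ v).card + 2) :
    ∃ δ, Tr G m univ δ ∧ ∀ v, δ v ≤ 2 := by
  classical
  obtain ⟨δ0, hδ0⟩ := exists_tr hm hcon
  have hex : ∃ n, ∃ δ, Tr G m univ δ ∧ ∑ v, (δ v - 2) = n := ⟨_, δ0, hδ0, rfl⟩
  obtain ⟨δ, hδ, hmin⟩ := Nat.find_spec hex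
  refine ⟨δ, hδ, ?_⟩
  by_contra hcon
  push Not at hcon
  obtain ⟨v0, hv0⟩ := hcon
  set d : V → ℕ := fun v => max (δ v) 2 with hd
  obtain ⟨S, g, -, ht, hs, -, ha, hc⟩ := cert (Fintype.card V) m hm univ δ d (by rw [card_univ]) hδ
    (fun v _ => le_max_left _ _)
  have hv0S : v0 ∈ S := by
    refine ht v0 (mem_univ _) fun δ' h' hδ' => ?_
    have h1 : ∀ v, δ' v - 2 ≤ δ v - 2 := by
      intro v
      have := hδ' v (mem_univ _)
      simp only [hd] at this
      omega
    have h2 : ∑ v, (δ v - 2) ≤ ∑ v, (δ' v - 2) := by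
      rw [hmin]
      exact Nat.find_min' hex ⟨δ', h', rfl⟩
    have h3 : ∀ v ∈ univ, δ' v - 2 = δ v - 2 :=
      (sum_eq_sum_iff_of_le fun v _ => h1 v).1 (le_antisymm (sum_le_sum fun v _ => h1 v) h2)
    have h4 := h3 v0 (mem_univ _)
    have h5 := hδ' v0 (mem_univ _)
    simp only [hd] at h5 ⊢
    omega
  have h1 := h S g ⟨v0, hv0S⟩ fun x y hx hy hxy =>
    ha x (mem_sdiff.2 ⟨mem_univ _, hx⟩) y (mem_sdiff.2 ⟨mem_univ _, hy⟩) hxy
  have hSne : S ≠ ∅ := fun h' => by rw [h'] at hv0S; simp at hv0S
  rw [if_neg hSne] at hc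
  have h2 : ∑ s ∈ S, mu m s < ∑ s ∈ S, ((δ s : ℤ) + mu m s - 2) := by
    refine sum_lt_sum (fun s hs' => ?_) ⟨v0, hv0S, ?_⟩
    · have := hs s hs'
      simp only [hd] at this
      have h3 : 2 ≤ δ s := by omega
      have : (2 : ℤ) ≤ δ s := by exact_mod_cast h3
      linarith
    · have : (2 : ℤ) < δ v0 := by exact_mod_cast hv0
      linarith
  have h3 : ∑ s ∈ S, mu m s = ((S.filter fun v => m v ≠ v).card : ℤ) := by
    rw [card_filter]
    push_cast
    refine sum_congr rfl fun s _ => ?_
    unfold mu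
    by_cases h4 : m s = s
    · rw [if_pos h4, if_neg (fun h5 => h5 h4)]
    · rw [if_neg h4, if_pos h4]
  rw [h3] at h2
  have h4 : ((((univ \ S).image g).card : ℕ) : ℤ) ≤ (((S.filter fun v => m v ≠ v).card + 2 : ℕ) : ℤ) := by
    exact_mod_cast h1
  push_cast at h4
  linarith

end H3W
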