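import Pool.Agent.Lib.H3W.M

/-! # H3W, file P: from the trees of file M to path systems -/

set_option autoImplicit false

namespace H3W

open Finset

variable {V : Type*} [DecidableEq V]

/-- The lists of `B` are disjoint paths (consecutive members related by `R`) which cover exactly `W`. -/
structure PS (R : V → V → Prop) (W : Finset V) (B : List (List V)) : Prop where
  nodup : B.flatten.Nodup
  mem : ∀ v, v ∈ B.flatten ↔ v ∈ W
  chain : ∀ l ∈ B, l.IsChain R

/-- `u` is an end of one of the paths. -/
def End (B : List (List V)) (u : V) : Prop := ∃ l ∈ B, l.head? = some u ∨ l.getLast? = some u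

theorem End.app {B C : List (List V)} {u : V} (h : End B u) : End (B ++ C) u := by
  obtain ⟨l, hl, h⟩ := h
  exact ⟨l, List.mem_append_left _ hl, h⟩

theorem End.app' {B C : List (List V)} {u : V} (h : End C u) : End (B ++ C) u := by
  obtain ⟨l, hl, h⟩ := h
  exact ⟨l, List.mem_append_right _ hl, h⟩

variable {R : V → V → Prop}

theorem PS.extract (hR : ∀ a b, R a b → R b a) {W : Finset V} {B : List (List V)} {u : V} (h : PS R W B)
    (hu : End B u) : ∃ l B', PS R W ((l ++ [u]) :: B') ∧ B'.length + 1 = B.length ∧
      ∀ y, End B y → End ((l ++ [u]) :: B') y := by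
  obtain ⟨l₁, hl₁, h1⟩ := hu
  obtain ⟨s, t, rfl⟩ := List.append_of_mem hl₁
  have hp : (s ++ l₁ :: t).Perm (l₁ :: (s ++ t)) := List.perm_middle
  have hrev : ∀ l : List V, l.IsChain R → l.reverse.IsChain R := by
    intro l hl
    rw [List.isChain_reverse]
    exact hl.imp fun a b hab => hR a b hab
  have hlen : (s ++ t).length + 1 = (s ++ l₁ :: t).length := by
    simp only [List.length_append, List.length_cons]
    omega
  -- a rearranged system
  have key : ∀ l₂ : List V, l₂.Perm l₁ → l₂.IsChain R → (∀ y, (l₁.head? = some y ∨ l₁.getLast? = some y) →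
      (l₂.head? = some y ∨ l₂.getLast? = some y)) →
      PS R W (l₂ :: (s ++ t)) ∧ ∀ y, End (s ++ l₁ :: t) y → End (l₂ :: (s ++ t)) y := by
    intro l₂ hl₂ hc hy
    have hfl : (l₂ :: (s ++ t)).flatten.Perm (s ++ l₁ :: t).flatten := by
      refine List.Perm.trans ?_ hp.symm.flatten
      rw [List.flatten_cons, List.flatten_cons]
      exact hl₂.append_right _
    refine ⟨⟨hfl.nodup_iff.2 h.nodup, fun v => hfl.mem_iff.trans (h.mem v), ?_⟩, ?_⟩
    · intro l hl
      rcases List.mem_cons.1 hl with rfl | hl
      · exact hc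
      · exact h.chain l (hp.mem_iff.2 (List.mem_cons_of_mem _ hl))
    · rintro y ⟨l, hl, hy'⟩
      rcases List.mem_cons.1 (hp.mem_iff.1 hl) with rfl | hl
      · exact ⟨l₂, List.mem_cons_self, hy y hy'⟩
      · exact ⟨l, List.mem_cons_of_mem _ hl, hy'⟩
  rcases h1 with h1 | h1
  · obtain ⟨l', rfl⟩ : ∃ l', l₁ = u :: l' := by
      cases l₁ with
      | nil => simp at h1
      | cons a l' =>
        rw [List.head?_cons, Option.some.injEq] at h1
        exact ⟨l', by rw [h1]⟩
    obtain ⟨k1, k2⟩ := key (u :: l').reverse (List.reverse_perm _) (hrev _ (h.chain _ hl₁)) fun y hy => by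
      rw [List.head?_reverse, List.getLast?_reverse]
      exact hy.symm
    rw [List.reverse_cons] at k1 k2
    exact ⟨l'.reverse, s ++ t, k1, hlen, k2⟩
  · obtain ⟨l', rfl⟩ : ∃ l', l₁ = l' ++ [u] := by
      rw [List.getLast?_eq_some_iff] at h1
      exact h1
    obtain ⟨k1, k2⟩ := key (l' ++ [u]) (List.Perm.refl _) (h.chain _ hl₁) fun y hy => hy
    exact ⟨l', s ++ t, k1, hlen, k2⟩

theorem PS.glue (hR : ∀ a b, R a b → R b a) {W₁ W₂ : Finset V} {B C : List (List V)} {u w : V} (h1 : PS R W₁ B)
    (h2 : PS R W₂ C) (hd : Disjoint W₁ W₂) (hu : End B u) (hw : End C w) (huw : R u w) :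
    ∃ D, PS R (W₁ ∪ W₂) D ∧ D.length + 1 = B.length + C.length ∧ (∀ y, y ≠ u → End B y → End D y) ∧
      ∀ y, y ≠ w → End C y → End D y := by
  obtain ⟨l, B', p1, q1, r1⟩ := h1.extract hR hu
  obtain ⟨k, C', p2, q2, r2⟩ := h2.extract hR hw
  set D : List (List V) := (l ++ [u] ++ (w :: k.reverse)) :: (B' ++ C') with hD
  have hfl : D.flatten.Perm (((l ++ [u]) :: B').flatten ++ ((k ++ [w]) :: C').flatten) := by
    rw [hD]
    simp only [List.flatten_cons, List.flatten_append]
    have e1 : (w :: k.reverse) = (k ++ [w]).reverse := by simp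
    rw [e1]
    have e2 : (k ++ [w]).reverse.Perm (k ++ [w]) := List.reverse_perm _
    have e3 : ((k ++ [w]).reverse ++ (B'.flatten ++ C'.flatten)).Perm
        (B'.flatten ++ ((k ++ [w]) ++ C'.flatten)) := by
      refine (e2.append_right _).trans ?_
      rw [← List.append_assoc, ← List.append_assoc]
      exact List.perm_append_comm.append_right _
    rw [List.append_assoc, List.append_assoc (l ++ [u])]
    exact e3.append_left _
  have hch : ∀ x ∈ D, x.IsChain R := by
    intro x hx
    rw [hD] at hx
    rcases List.mem_cons.1 hx with rfl | hx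
    · rw [List.isChain_append]
      refine ⟨p1.chain _ List.mem_cons_self, ?_, ?_⟩
      · have h3 := p2.chain _ List.mem_cons_self
        have e1 : (w :: k.reverse) = (k ++ [w]).reverse := by simp
        rw [e1, List.isChain_reverse]
        exact h3.imp fun a b hab => hR a b hab
      · intro a ha b hb
        rw [List.getLast?_concat, Option.mem_def, Option.some.injEq] at ha
        rw [List.head?_cons, Option.mem_def, Option.some.injEq] at hb
        rw [← ha, ← hb]
        exact huw
    · rcases List.mem_append.1 hx with hx | hx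
      · exact p1.chain x (List.mem_cons_of_mem _ hx)
      · exact p2.chain x (List.mem_cons_of_mem _ hx)
  refine ⟨D, ⟨?_, ?_, hch⟩, ?_, ?_, ?_⟩
  · rw [hfl.nodup_iff, List.nodup_append']
    refine ⟨p1.nodup, p2.nodup, ?_⟩
    intro a ha hb
    exact disjoint_left.1 hd ((p1.mem a).1 ha) ((p2.mem a).1 hb)
  · intro v
    rw [hfl.mem_iff, List.mem_append, p1.mem, p2.mem, mem_union]
  · rw [hD]
    simp only [List.length_append, List.length_cons]
    omega
  · intro y hy hy'
    obtain ⟨x, hx, h3⟩ := r1 y hy'
    rcases List.mem_cons.1 hx with rfl | hx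
    · refine ⟨_, List.mem_cons_self, Or.inl ?_⟩
      rcases h3 with h3 | h3
      · cases l with
        | nil =>
          rw [List.nil_append, List.head?_cons, Option.some.injEq] at h3
          exact absurd h3.symm hy
        | cons a l' => simpa using h3
      · rw [List.getLast?_concat, Option.some.injEq] at h3
        exact absurd h3.symm hy
    · exact ⟨x, List.mem_cons_of_mem _ (List.mem_append_left _ hx), h3⟩
  · intro y hy hy'
    obtain ⟨x, hx, h3⟩ := r2 y hy'
    rcases List.mem_cons.1 hx with rfl | hx
    · refine ⟨_, List.mem_cons_self, Or.inr ?_⟩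
      rcases h3 with h3 | h3
      · cases k with
        | nil =>
          rw [List.nil_append, List.head?_cons, Option.some.injEq] at h3
          exact absurd h3.symm hy
        | cons a k' =>
          have : a = y := by simpa using h3
          subst this
          rw [List.getLast?_append, List.getLast?_cons, List.getLast?_reverse]
          simp
      · rw [List.getLast?_concat, Option.some.injEq] at h3
        exact absurd h3.symm hy
    · exact ⟨x, List.mem_cons_of_mem _ (List.mem_append_right _ hx), h3⟩

theorem PS.union {W₁ W₂ : Finset V} {B C : List (List V)} (h1 : PS R W₁ B) (h2 : PS R W₂ C)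
    (hd : Disjoint W₁ W₂) : PS R (W₁ ∪ W₂) (B ++ C) := by
  refine ⟨?_, ?_, ?_⟩
  · rw [List.flatten_append, List.nodup_append']
    exact ⟨h1.nodup, h2.nodup, fun a ha hb => disjoint_left.1 hd ((h1.mem a).1 ha) ((h2.mem a).1 hb)⟩
  · intro v
    rw [List.flatten_append, List.mem_append, h1.mem, h2.mem, mem_union]
  · intro l hl
    rcases List.mem_append.1 hl with hl | hl
    · exact h1.chain l hl
    · exact h2.chain l hl

end H3W
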