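import Pool.Agent.Lib.H3W.P

/-! # H3W, file Q: two path systems from a tree with at most two edges outside the matching at every vertex -/

set_option autoImplicit false

namespace H3W

open Finset

variable {V : Type*} [DecidableEq V] {G : SimpleGraph V} {m : V → V}

/-- Two path systems on `W`; a vertex with at most one edge is an end in one of them, a vertex without edges in both. -/
structure Two (R : V → V → Prop) (m : V → V) (W : Finset V) (δ : V → ℕ) (B C : List (List V)) : Prop where
  fst : PS R W B
  snd : PS R W C
  len : 2 * (B.length + C.length) = W.card + (W.filter fun v => m v = v).card + 2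
  zero : ∀ v ∈ W, δ v = 0 → End B v ∧ End C v
  one : ∀ v ∈ W, δ v ≤ 1 → End B v ∨ End C v

theorem Two.swap {R : V → V → Prop} {W : Finset V} {δ : V → ℕ} {B C : List (List V)} (h : Two R m W δ B C) :
    Two R m W δ C B where
  fst := h.snd
  snd := h.fst
  len := by rw [add_comm C.length]; exact h.len
  zero := fun v hv h0 => (h.zero v hv h0).symm
  one := fun v hv h0 => (h.one v hv h0).symm

theorem PS.mono {R R' : V → V → Prop} (hR : ∀ a b, R a b → R' a b) {W : Finset V} {B : List (List V)}
    (h : PS R W B) : PS R' W B := ⟨h.nodup, h.mem, fun l hl => (h.chain l hl).imp hR⟩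

theorem Two.mono {R R' : V → V → Prop} (hR : ∀ a b, R a b → R' a b) {W : Finset V} {δ : V → ℕ}
    {B C : List (List V)} (h : Two R m W δ B C) : Two R' m W δ B C :=
  ⟨h.fst.mono hR, h.snd.mono hR, h.len, h.zero, h.one⟩

/-- The tree as a graph, with the two path systems in it. -/
structure Tree (G : SimpleGraph V) (m : V → V) (W : Finset V) (δ : V → ℕ) (T : SimpleGraph V) : Prop where
  le : T ≤ G
  supp : ∀ x y, T.Adj x y → x ∈ W ∧ y ∈ W
  conn : ∀ x ∈ W, ∀ y ∈ W, T.Reachable x y
  mat : ∀ v ∈ W, m v ≠ v → T.Adj v (m v)
  deg : ∀ v ∈ W, (T.neighborSet v).ncard = δ v + if m v = v then 0 else 1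

theorem exists_two [Finite V] (hm : ∀ v, m (m v) = v) (hG : ∀ v, m v ≠ v → G.Adj v (m v)) {W : Finset V}
    {δ : V → ℕ} (h : Tr G m W δ) : (∀ v ∈ W, δ v ≤ 2) → ∃ T, Tree G m W δ T ∧ ∃ B C, Two T.Adj m W δ B C := by
  induction h with
  | base v =>
    intro _
    by_cases hv : m v = v
    · rw [hv, pair_eq_singleton]
      refine ⟨⊥, ⟨bot_le, fun x y h => h.elim, ?_, ?_, ?_⟩, [[v]], [[v]], ?_⟩
      · intro x hx y hy
        rw [mem_singleton] at hx hy
        rw [hx, hy]
      · intro x hx hne
        rw [mem_singleton] at hx
        rw [hx] at hne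
        exact absurd hv hne
      · intro x hx
        rw [mem_singleton] at hx
        subst hx
        simp [hv]
      have h1 : PS (⊥ : SimpleGraph V).Adj {v} [[v]] := by
        refine ⟨by simp, by simp, ?_⟩
        intro l hl
        rw [List.mem_singleton] at hl
        subst hl
        exact List.isChain_singleton _
      have h2 : ∀ x ∈ ({v} : Finset V), End [[v]] x := by
        intro x hx
        rw [mem_singleton] at hx
        subst hx
        exact ⟨[x], by simp, by simp⟩
      refine ⟨h1, h1, ?_, fun x hx _ => ⟨h2 x hx, h2 x hx⟩, fun x hx _ => Or.inl (h2 x hx)⟩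
      rw [filter_singleton, if_pos hv]
      simp
    · have hv' : v ≠ m v := fun h => hv h.symm
      let T : SimpleGraph V := SimpleGraph.mk (fun x y => (x = v ∧ y = m v) ∨ (x = m v ∧ y = v))
        ⟨by
          rintro x y (⟨h, h'⟩ | ⟨h, h'⟩)
          · exact Or.inr ⟨h', h⟩
          · exact Or.inl ⟨h', h⟩⟩
        ⟨by
          rintro x (⟨h, h'⟩ | ⟨h, h'⟩)
          · exact hv' (h.symm.trans h')
          · exact hv' (h'.symm.trans h)⟩
      have hT : ∀ x y, T.Adj x y ↔ (x = v ∧ y = m v) ∨ (x = m v ∧ y = v) := fun _ _ => Iff.rfl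
      have hvT : T.Adj v (m v) := Or.inl ⟨rfl, rfl⟩
      refine ⟨T, ⟨?_, ?_, ?_, ?_, ?_⟩, [[v, m v]], [[v, m v]], ?_⟩
      · intro x y hxy
        rcases hxy with ⟨rfl, rfl⟩ | ⟨rfl, rfl⟩
        · exact hG _ hv
        · exact (hG _ hv).symm
      · intro x y hxy
        rcases hxy with ⟨rfl, rfl⟩ | ⟨rfl, rfl⟩
        · exact ⟨mem_insert_self _ _, mem_insert_of_mem (mem_singleton_self _)⟩
        · exact ⟨mem_insert_of_mem (mem_singleton_self _), mem_insert_self _ _⟩
      · intro x hx y hy
        rw [mem_insert, mem_singleton] at hx hy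
        rcases hx with rfl | rfl <;> rcases hy with rfl | rfl
        · exact SimpleGraph.Reachable.refl _
        · exact hvT.reachable
        · exact hvT.symm.reachable
        · exact SimpleGraph.Reachable.refl _
      · intro x hx hne
        rw [mem_insert, mem_singleton] at hx
        rcases hx with rfl | rfl
        · exact hvT
        · rw [hm]
          exact hvT.symm
      · intro x hx
        rw [mem_insert, mem_singleton] at hx
        have e : T.neighborSet x = {m x} := by
          ext y
          rw [SimpleGraph.mem_neighborSet, hT, Set.mem_singleton_iff]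
          rcases hx with rfl | rfl
          · constructor
            · rintro (⟨_, h⟩ | ⟨h, _⟩)
              · exact h
              · exact absurd h hv'
            · intro h
              exact Or.inl ⟨rfl, h⟩
          · rw [hm]
            constructor
            · rintro (⟨h, _⟩ | ⟨_, h⟩)
              · exact absurd h hv
              · exact h
            · intro h
              exact Or.inr ⟨rfl, h⟩
        rw [e, Set.ncard_singleton, if_neg]
        · rfl
        · rcases hx with rfl | rfl
          · exact hv
          · rw [hm]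
            exact hv'
      have h1 : PS T.Adj {v, m v} [[v, m v]] := by
        refine ⟨?_, ?_, ?_⟩
        · simpa using hv'
        · intro x
          simp
        · intro l hl
          rw [List.mem_singleton] at hl
          subst hl
          rw [List.isChain_cons_cons]
          exact ⟨hvT, List.isChain_singleton _⟩
      have h2 : ∀ x ∈ ({v, m v} : Finset V), End [[v, m v]] x := by
        intro x hx
        rw [mem_insert, mem_singleton] at hx
        refine ⟨[v, m v], by simp, ?_⟩
        rcases hx with rfl | rfl
        · exact Or.inl rfl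
        · exact Or.inr rfl
      refine ⟨h1, h1, ?_, fun x hx _ => ⟨h2 x hx, h2 x hx⟩, fun x hx _ => Or.inl (h2 x hx)⟩
      have h3 : (({v, m v} : Finset V).filter fun v => m v = v) = ∅ := by
        rw [filter_eq_empty_iff]
        intro x hx
        rw [mem_insert, mem_singleton] at hx
        rcases hx with rfl | rfl
        · exact hv
        · rw [hm]
          exact hv'
      rw [h3, card_pair hv']
      simp
  | @glue W₁ W₂ δ₁ δ₂ u w h1 h2 hd hu hw ha ih1 ih2 =>
    intro hδ
    have hu2 : u ∉ W₂ := disjoint_left.1 hd hu
    have hw1 : w ∉ W₁ := fun h' => disjoint_left.1 hd h' hw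
    have huw : u ≠ w := fun h' => hu2 (h' ▸ hw)
    have hval1 : ∀ y ∈ W₁, (δ₁ + δ₂ + Pi.single u 1 + Pi.single w 1 : V → ℕ) y = δ₁ y + if y = u then 1 else 0 := by
      intro y hy
      have hy2 : y ∉ W₂ := disjoint_left.1 hd hy
      have hyw : y ≠ w := fun h' => hy2 (h' ▸ hw)
      simp only [Pi.add_apply, h2.supp y hy2, add_zero, Pi.single_apply, if_neg hyw]
    have hval2 : ∀ y ∈ W₂, (δ₁ + δ₂ + Pi.single u 1 + Pi.single w 1 : V → ℕ) y = δ₂ y + if y = w then 1 else 0 := by
      intro y hy
      have hy1 : y ∉ W₁ := fun h' => disjoint_left.1 hd h' hy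
      have hyu : y ≠ u := fun h' => hy1 (h' ▸ hu)
      simp only [Pi.add_apply, h1.supp y hy1, zero_add, Pi.single_apply, if_neg hyu, add_zero]
    obtain ⟨T₁, g1, B₁, C₁, t1⟩ := ih1 fun y hy => by
      have h3 := hδ y (mem_union_left _ hy)
      rw [hval1 y hy] at h3
      omega
    obtain ⟨T₂, g2, B₂, C₂, t2⟩ := ih2 fun y hy => by
      have h3 := hδ y (mem_union_right _ hy)
      rw [hval2 y hy] at h3
      omega
    have hu1 : δ₁ u ≤ 1 := by
      have h3 := hδ u (mem_union_left _ hu)
      rw [hval1 u hu, if_pos rfl] at h3
      omega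
    have hw2 : δ₂ w ≤ 1 := by
      have h3 := hδ w (mem_union_right _ hw)
      rw [hval2 w hw, if_pos rfl] at h3
      omega
    obtain ⟨B₁, C₁, t1, hBu⟩ : ∃ B C, Two T₁.Adj m W₁ δ₁ B C ∧ End B u := by
      rcases t1.one u hu hu1 with h3 | h3
      · exact ⟨B₁, C₁, t1, h3⟩
      · exact ⟨C₁, B₁, t1.swap, h3⟩
    obtain ⟨B₂, C₂, t2, hBw⟩ : ∃ B C, Two T₂.Adj m W₂ δ₂ B C ∧ End B w := by
      rcases t2.one w hw hw2 with h3 | h3
      · exact ⟨B₂, C₂, t2, h3⟩
      · exact ⟨C₂, B₂, t2.swap, h3⟩
    let T : SimpleGraph V := SimpleGraph.mk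
      (fun x y => T₁.Adj x y ∨ T₂.Adj x y ∨ (x = u ∧ y = w) ∨ (x = w ∧ y = u))
      ⟨by
        rintro x y (h | h | ⟨h, h'⟩ | ⟨h, h'⟩)
        · exact Or.inl h.symm
        · exact Or.inr (Or.inl h.symm)
        · exact Or.inr (Or.inr (Or.inr ⟨h', h⟩))
        · exact Or.inr (Or.inr (Or.inl ⟨h', h⟩))⟩
      ⟨by
        rintro x (h | h | ⟨h, h'⟩ | ⟨h, h'⟩)
        · exact T₁.loopless.irrefl x h
        · exact T₂.loopless.irrefl x h
        · exact huw (h.symm.trans h')
        · exact huw (h'.symm.trans h)⟩
    have hTadj : ∀ x y, T.Adj x y ↔ (T₁.Adj x y ∨ T₂.Adj x y ∨ (x = u ∧ y = w) ∨ (x = w ∧ y = u)) :=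
      fun _ _ => Iff.rfl
    have hle1 : ∀ x y, T₁.Adj x y → T.Adj x y := fun x y h => Or.inl h
    have hle2 : ∀ x y, T₂.Adj x y → T.Adj x y := fun x y h => Or.inr (Or.inl h)
    have huwT : T.Adj u w := Or.inr (Or.inr (Or.inl ⟨rfl, rfl⟩))
    obtain ⟨D, hD, hlen, hD1, hD2⟩ := (t1.fst.mono hle1).glue (fun a b hab => hab.symm) (t2.fst.mono hle2) hd
      hBu hBw huwT
    refine ⟨T, ⟨?_, ?_, ?_, ?_, ?_⟩, D, C₁ ++ C₂, hD, (t1.snd.mono hle1).union (t2.snd.mono hle2) hd, ?_, ?_, ?_⟩
    · intro x y hxy
      rcases hxy with h | h | ⟨rfl, rfl⟩ | ⟨rfl, rfl⟩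
      · exact g1.le h
      · exact g2.le h
      · exact ha
      · exact ha.symm
    · intro x y hxy
      rcases hxy with h | h | ⟨rfl, rfl⟩ | ⟨rfl, rfl⟩
      · exact ⟨mem_union_left _ (g1.supp x y h).1, mem_union_left _ (g1.supp x y h).2⟩
      · exact ⟨mem_union_right _ (g2.supp x y h).1, mem_union_right _ (g2.supp x y h).2⟩
      · exact ⟨mem_union_left _ hu, mem_union_right _ hw⟩
      · exact ⟨mem_union_right _ hw, mem_union_left _ hu⟩
    · have key : ∀ x ∈ W₁ ∪ W₂, T.Reachable x u := by
        intro x hx
        rcases mem_union.1 hx with hx | hx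
        · exact (g1.conn x hx u hu).mono fun x y => hle1 x y
        · exact ((g2.conn x hx w hw).mono fun x y => hle2 x y).trans huwT.symm.reachable
      intro x hx y hy
      exact (key x hx).trans (key y hy).symm
    · intro x hx hne
      rcases mem_union.1 hx with hx | hx
      · exact hle1 _ _ (g1.mat x hx hne)
      · exact hle2 _ _ (g2.mat x hx hne)
    · intro v hv
      rcases mem_union.1 hv with hv | hv
      · have e : T.neighborSet v = T₁.neighborSet v ∪ (if v = u then {w} else ∅ : Set V) := by
          ext y
          rw [Set.mem_union, SimpleGraph.mem_neighborSet, SimpleGraph.mem_neighborSet, hTadj]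
          constructor
          · rintro (h | h | ⟨h, h'⟩ | ⟨h, h'⟩)
            · exact Or.inl h
            · exact absurd hv (fun h3 => disjoint_left.1 hd h3 (g2.supp v y h).1)
            · rw [if_pos h]
              exact Or.inr h'
            · exact absurd (h ▸ hv) hw1
          · rintro (h | h)
            · exact Or.inl h
            · split_ifs at h with h3
              · exact Or.inr (Or.inr (Or.inl ⟨h3, h⟩))
              · exact absurd h (Set.notMem_empty _)
        have d : Disjoint (T₁.neighborSet v) (if v = u then {w} else ∅ : Set V) := by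
          rw [Set.disjoint_left]
          intro y hy hy'
          split_ifs at hy' with h3
          · rw [Set.mem_singleton_iff] at hy'
            exact hw1 (hy' ▸ (g1.supp v y hy).2)
          · exact hy'
        rw [e, Set.ncard_union_eq d (Set.toFinite _) (Set.toFinite _), g1.deg v hv, hval1 v hv]
        split_ifs <;> simp
      · have e : T.neighborSet v = T₂.neighborSet v ∪ (if v = w then {u} else ∅ : Set V) := by
          ext y
          rw [Set.mem_union, SimpleGraph.mem_neighborSet, SimpleGraph.mem_neighborSet, hTadj]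
          constructor
          · rintro (h | h | ⟨h, h'⟩ | ⟨h, h'⟩)
            · exact absurd hv (fun h3 => disjoint_left.1 hd (g1.supp v y h).1 h3)
            · exact Or.inl h
            · exact absurd (h ▸ hv) hu2
            · rw [if_pos h]
              exact Or.inr h'
          · rintro (h | h)
            · exact Or.inr (Or.inl h)
            · split_ifs at h with h3
              · exact Or.inr (Or.inr (Or.inr ⟨h3, h⟩))
              · exact absurd h (Set.notMem_empty _)
        have d : Disjoint (T₂.neighborSet v) (if v = w then {u} else ∅ : Set V) := by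
          rw [Set.disjoint_left]
          intro y hy hy'
          split_ifs at hy' with h3
          · rw [Set.mem_singleton_iff] at hy'
            exact hu2 (hy' ▸ (g2.supp v y hy).2)
          · exact hy'
        rw [e, Set.ncard_union_eq d (Set.toFinite _) (Set.toFinite _), g2.deg v hv, hval2 v hv]
        split_ifs <;> simp
    · rw [card_union_of_disjoint hd, filter_union, card_union_of_disjoint (disjoint_filter_filter hd),
        List.length_append]
      have e1 := t1.len
      have e2 := t2.len
      omega
    · intro y hy h0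
      rcases mem_union.1 hy with hy | hy
      · rw [hval1 y hy] at h0
        have hyu : y ≠ u := by
          rintro rfl
          rw [if_pos rfl] at h0
          omega
        obtain ⟨e1, e2⟩ := t1.zero y hy (by omega)
        exact ⟨hD1 y hyu e1, e2.app⟩
      · rw [hval2 y hy] at h0
        have hyw : y ≠ w := by
          rintro rfl
          rw [if_pos rfl] at h0
          omega
        obtain ⟨e1, e2⟩ := t2.zero y hy (by omega)
        exact ⟨hD2 y hyw e1, e2.app'⟩
    · intro y hy h0
      rcases mem_union.1 hy with hy | hy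
      · rw [hval1 y hy] at h0
        by_cases hyu : y = u
        · rw [if_pos hyu] at h0
          exact Or.inr (t1.zero y hy (by omega)).2.app
        · rcases t1.one y hy (by omega) with e1 | e1
          · exact Or.inl (hD1 y hyu e1)
          · exact Or.inr e1.app
      · rw [hval2 y hy] at h0
        by_cases hyw : y = w
        · rw [if_pos hyw] at h0
          exact Or.inr (t2.zero y hy (by omega)).2.app'
        · rcases t2.one y hy (by omega) with e1 | e1
          · exact Or.inl (hD2 y hyw e1)
          · exact Or.inr e1.app'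

theorem Tr.sum_eq [Fintype V] (hm : ∀ v, m (m v) = v) {W : Finset V} {δ : V → ℕ} (h : Tr G m W δ) :
    ∑ v, δ v + (W.filter fun v => m v ≠ v).card + 2 = 2 * W.card := by
  induction h with
  | base v =>
    by_cases hv : m v = v
    · rw [hv, pair_eq_singleton, filter_singleton, if_neg (fun h => h hv)]
      simp
    · have hv' : v ≠ m v := fun h => hv h.symm
      have h3 : (({v, m v} : Finset V).filter fun v => m v ≠ v) = {v, m v} := by
        rw [filter_eq_self]
        intro x hx
        rw [mem_insert, mem_singleton] at hx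
        rcases hx with rfl | rfl
        · exact hv
        · rw [hm]
          exact hv'
      rw [h3, card_pair hv']
      simp
  | @glue W₁ W₂ δ₁ δ₂ u w h1 h2 hd _ _ _ ih1 ih2 =>
    rw [card_union_of_disjoint hd, filter_union, card_union_of_disjoint (disjoint_filter_filter hd)]
    simp only [Pi.add_apply, sum_add_distrib, sum_pi_single', mem_univ, if_true]
    omega

/-- The number of consecutive pairs of a list with `R`. -/
noncomputable def good {α : Type*} (R : α → α → Prop) : List α → ℕ
  | [] => 0
  | [_] => 0
  | a :: b :: l => (open Classical in if R a b then 1 else 0) + good R (b :: l)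

theorem good_append {α : Type*} (R : α → α → Prop) : ∀ l k : List α, l.IsChain R → l.length ≤ 1 + good R (l ++ k) - good R k
    ∧ good R k ≤ good R (l ++ k)
  | [], k, _ => by simp
  | [a], [], _ => by simp [good]
  | [a], b :: k, _ => by
    simp only [List.cons_append, List.nil_append, good, List.length_cons, List.length_nil]
    omega
  | a :: b :: l, k, h => by
    rw [List.isChain_cons_cons] at h
    obtain ⟨h1, h2⟩ := good_append R (b :: l) k h.2
    simp only [List.cons_append, good, List.length_cons] at h1 h2 ⊢
    rw [if_pos h.1]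
    omega

theorem good_flatten {α : Type*} (R : α → α → Prop) : ∀ B : List (List α), (∀ l ∈ B, l.IsChain R) →
    B.flatten.length ≤ B.length + good R B.flatten
  | [], _ => by simp
  | l :: B, h => by
    have h1 := good_flatten R B fun k hk => h k (List.mem_cons_of_mem _ hk)
    obtain ⟨h2, h3⟩ := good_append R l B.flatten (h l List.mem_cons_self)
    rw [List.flatten_cons, List.length_append, List.length_cons]
    omega

/-- The consecutive pairs as a set of indices. -/
theorem good_card {α : Type*} (R : α → α → Prop) : ∀ l : List α, ∃ A : Finset ℕ, A.card = good R l ∧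
    ∀ i ∈ A, ∃ (h : i + 1 < l.length), R l[i] l[i + 1]
  | [] => ⟨∅, by simp [good], by simp⟩
  | [a] => ⟨∅, by simp [good], by simp⟩
  | a :: b :: l => by
    obtain ⟨A, hA, hA'⟩ := good_card R (b :: l)
    have hs : (A.map ⟨fun i => i + 1, fun i j h => Nat.succ_injective h⟩).card = A.card := card_map _
    by_cases hab : R a b
    · refine ⟨insert 0 (A.map ⟨fun i => i + 1, fun i j h => Nat.succ_injective h⟩), ?_, ?_⟩
      · rw [card_insert_of_notMem (by simp), hs, hA]
        simp only [good]
        rw [if_pos hab]
        omega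
      · intro i hi
        rw [mem_insert, mem_map] at hi
        rcases hi with rfl | ⟨j, hj, rfl⟩
        · exact ⟨by simp, by simpa using hab⟩
        · obtain ⟨h1, h2⟩ := hA' j hj
          exact ⟨by simpa using h1, by simpa using h2⟩
    · refine ⟨A.map ⟨fun i => i + 1, fun i j h => Nat.succ_injective h⟩, ?_, ?_⟩
      · rw [hs, hA]
        simp only [good]
        rw [if_neg hab]
        omega
      · intro i hi
        rw [mem_map] at hi
        obtain ⟨j, hj, rfl⟩ := hi
        obtain ⟨h1, h2⟩ := hA' j hj
        exact ⟨by simpa using h1, by simpa using h2⟩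

/-- A graph with a matching `m` missing at most one vertex, connected, with the toughness condition, has a spanning
tree `T` with all degrees at most 3 which contains the matching, and a linear ordering of the vertices in which at
least `3 (n - 1) / 4` of the consecutive pairs are edges of `T`. -/
theorem exists_order [Fintype V] [Nonempty V] (hm : ∀ v, m (m v) = v) (hG : ∀ v, m v ≠ v → G.Adj v (m v))
    (hu : (univ.filter fun v => m v = v).card ≤ 1)
    (hcon : ∀ S : Finset V, S.Nonempty → S ≠ univ → ∃ a ∈ S, ∃ b, b ∉ S ∧ G.Adj a b)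
    (ht : ∀ (S : Finset V) (g : V → V), S.Nonempty → (∀ x y, x ∉ S → y ∉ S → G.Adj x y → g x = g y) →
      ((univ \ S).image g).card ≤ S.card + 1) :
    ∃ T ≤ G, T.IsTree ∧ (∀ v, (T.neighborSet v).ncard + (if m v = v then 1 else 0) ≤ 3) ∧
      (∀ v, m v ≠ v → T.Adj v (m v)) ∧
      ∃ (l : List V) (A : Finset ℕ), l.Nodup ∧ (∀ v, v ∈ l) ∧ 3 * Fintype.card V ≤ 4 * A.card + 3 ∧
        ∀ i ∈ A, ∃ (h : i + 1 < l.length), T.Adj l[i] l[i + 1] := by
  classical
  obtain ⟨δ, hδ, hδ2⟩ := win_m (G := G) hm hcon fun S g hS hg => by
    have h1 := ht S g hS hg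
    have h2 : (S.filter fun v => m v = v).card ≤ 1 :=
      (card_le_card (filter_subset_filter _ (subset_univ _))).trans hu
    have h3 : (S.filter fun v => m v = v).card + (S.filter fun v => ¬ m v = v).card = S.card :=
      card_filter_add_card_filter_not _
    have h4 : (S.filter fun v => m v ≠ v) = S.filter fun v => ¬ m v = v := rfl
    rw [h4]
    omega
  obtain ⟨T, g, B, C, t⟩ := exists_two hm hG hδ fun v _ => hδ2 v
  have key : ∀ D : List (List V), PS T.Adj univ D → 2 * D.length ≤ B.length + C.length →
      ∃ (l : List V) (A : Finset ℕ), l.Nodup ∧ (∀ v, v ∈ l) ∧ 3 * Fintype.card V ≤ 4 * A.card + 3 ∧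
        ∀ i ∈ A, ∃ (h : i + 1 < l.length), T.Adj l[i] l[i + 1] := by
    intro D hD hlen
    obtain ⟨A, hA, hA'⟩ := good_card T.Adj D.flatten
    have h1 := good_flatten T.Adj D hD.chain
    have h2 : D.flatten.length = Fintype.card V := by
      rw [← List.toFinset_card_of_nodup hD.nodup]
      have : D.flatten.toFinset = univ := by
        ext v
        rw [List.mem_toFinset, hD.mem]
      rw [this, card_univ]
    refine ⟨D.flatten, A, hD.nodup, fun v => (hD.mem v).2 (mem_univ v), ?_, hA'⟩
    have h3 := t.len
    rw [card_univ] at h3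
    omega
  refine ⟨T, g.le, ?_, ?_, fun v => g.mat v (mem_univ v), ?_⟩
  · have hconn : T.Connected :=
      { preconnected := fun x y => g.conn x (mem_univ _) y (mem_univ _), nonempty := inferInstance }
    rw [SimpleGraph.isTree_iff_connected_and_card]
    refine ⟨hconn, ?_⟩
    have h1 := hδ.sum_eq hm
    have h2 : ∑ v, T.degree v = 2 * T.edgeFinset.card := T.sum_degrees_eq_twice_card_edges
    have h3 : ∀ v ∈ univ, T.degree v = δ v + if m v ≠ v then 1 else 0 := by
      intro v _
      have h4 := g.deg v (mem_univ v)
      rw [Set.ncard_eq_toFinset_card'] at h4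
      have h5 : T.degree v = (T.neighborSet v).toFinset.card := rfl
      rw [h5, h4]
      by_cases h6 : m v = v
      · rw [if_pos h6, if_neg (fun h7 => h7 h6)]
      · rw [if_neg h6, if_pos h6]
    rw [sum_congr rfl h3, sum_add_distrib, ← card_filter] at h2
    rw [card_univ] at h1
    have h4 : T.edgeFinset.card + 1 = Fintype.card V := by omega
    rw [Nat.card_eq_fintype_card, Nat.card_eq_fintype_card, ← SimpleGraph.edgeFinset_card]
    exact h4
  · intro v
    rw [g.deg v (mem_univ v)]
    have := hδ2 v
    split_ifs <;> omega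
  · rcases le_total B.length C.length with h | h
    · exact key B t.fst (by omega)
    · exact key C t.snd (by omega)

end H3W
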